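import Pool.Agent.helper27.Mach.Univ

/-! A universal affine machine, final form (module M2b for MP_1b0330_gt). -/

set_option autoImplicit false
set_option backward.isDefEq.respectTransparency false

open Turing Turing.PartrecToTM2 Relation Function
open Pool.Agent.helper11.Boone

namespace Pool.Agent.helper27.Mach

/-- A program with undecidable halting set. -/
theorem exists_undec : ∃ c : ToPartrec.Code,
    ¬ ComputablePred (fun n : ℕ => (c.eval [n]).Dom) := by
  have hp : Partrec (fun n : ℕ =>
      Nat.Partrec.Code.eval (Denumerable.ofNat Nat.Partrec.Code n) 0) :=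
    Nat.Partrec.Code.eval_part.comp (Computable.ofNat Nat.Partrec.Code) (Computable.const 0)
  obtain ⟨c, hc⟩ := ToPartrec.Code.exists_code (Nat.Partrec'.part_iff₁.2 hp)
  refine ⟨c, fun h => ?_⟩
  have h2 : ComputablePred (fun d : Nat.Partrec.Code => (Nat.Partrec.Code.eval d 0).Dom) := by
    refine ComputablePred.computable_of_manyOneReducible (q := fun n : ℕ => (c.eval [n]).Dom)
      ⟨fun d => Encodable.encode d, Computable.encode, fun d => ?_⟩ h
    have h3 := hc (Encodable.encode d ::ᵥ List.Vector.nil)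
    have h4 : c.eval [Encodable.encode d] =
        pure <$> Nat.Partrec.Code.eval d 0 := by
      refine h3.trans ?_
      rw [List.Vector.head_cons, Denumerable.ofNat_encode]
    show _ ↔ (c.eval [Encodable.encode d]).Dom
    rw [h4]
    rfl
  exact ComputablePred.halting_problem 0 h2

/-- The code of the input. -/
def g (n : ℕ) : ℕ := enc (trList [n])

theorem g_zero : g 0 = 2 := by
  rw [g, trList, trNat_zero]; rfl

theorem trNat_rec {n : ℕ} (hn : n ≠ 0) :
    trNat n = (if n % 2 = 1 then Γ'.bit1 else Γ'.bit0) :: trNat (n / 2) := by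
  have h1 : n = Nat.bit (n.bodd) (n / 2) := by
    rw [← Nat.div2_val]; exact (Nat.bit_bodd_div2 n).symm
  have h2 : (n : Num) = Num.ofNat' n := (Num.ofNat'_eq n).symm
  have h3 : ((n / 2 : ℕ) : Num) = Num.ofNat' (n / 2) := (Num.ofNat'_eq _).symm
  have h4 : n % 2 = if n.bodd then 1 else 0 := by
    rw [Nat.mod_two_of_bodd]; cases n.bodd <;> rfl
  rw [trNat, trNat, h2, h3, h4]
  have h5 : Num.ofNat' n = cond n.bodd Num.bit1 Num.bit0 (Num.ofNat' (n / 2)) := by
    conv_lhs => rw [h1]
    exact Num.ofNat'_bit _ _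
  rw [h5]
  cases hb : n.bodd with
  | true =>
    cases Num.ofNat' (n / 2) <;> simp [Num.bit1, trNum, trPosNum]
  | false =>
    have h6 : n / 2 ≠ 0 := by
      intro h7
      rw [hb, h7] at h1
      exact hn h1
    have h8 : Num.ofNat' (n / 2) ≠ 0 := by
      rw [← h3]
      exact_mod_cast h6
    cases h9 : Num.ofNat' (n / 2) with
    | zero => exact absurd h9 h8
    | pos p => simp [Num.bit0, trNum, trPosNum]

theorem g_rec {n : ℕ} (hn : n ≠ 0) :
    g n = (if n % 2 = 1 then 4 else 3) + 5 * g (n / 2) := by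
  rw [g, g, trList, trNat_rec hn, trList]
  split_ifs <;> rfl

theorem g_primrec : Primrec g := by
  have h : Primrec₂ (fun (_ : Unit) (n : ℕ) => g n) := by
    refine Primrec.nat_strong_rec (fun (_ : Unit) (n : ℕ) => g n)
      (g := fun _ l => if l.length = 0 then some 2 else
        (l[l.length / 2]?).map (fun r => (if l.length % 2 = 1 then 4 else 3) + 5 * r)) ?_ ?_
    · refine Primrec.ite ?_ (Primrec.const _) ?_
      · exact Primrec.eq.comp (Primrec.list_length.comp Primrec.snd) (Primrec.const 0)
      · refine Primrec.option_map (Primrec.list_getElem?.comp Primrec.snd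
          (Primrec.nat_div.comp (Primrec.list_length.comp Primrec.snd) (Primrec.const 2))) ?_
        refine Primrec.nat_add.comp ?_ (Primrec.nat_mul.comp (Primrec.const 5) Primrec.snd)
        refine Primrec.ite ?_ (Primrec.const _) (Primrec.const _)
        exact Primrec.eq.comp (Primrec.nat_mod.comp (Primrec.list_length.comp
          (Primrec.snd.comp Primrec.fst)) (Primrec.const 2)) (Primrec.const 1)
    · intro _ n
      by_cases hn : n = 0
      · subst hn; simp [g_zero]
      · have h2 : n / 2 < n := Nat.div_lt_self (Nat.pos_of_ne_zero hn) (by norm_num)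
        simp [hn, List.getElem?_range h2, ← g_rec hn]
  exact h.comp (Primrec.const ()) Primrec.id

/-- M2b: a universal affine machine. -/
theorem exists_machine : ∃ (k : ℕ) (M : List (Rule k)),
    ¬ ComputablePred (fun v : Fin k → ℕ => EqvGen (Step M) (fun j => (v j : ℤ)) 0) := by
  obtain ⟨c, hc⟩ := exists_undec
  obtain ⟨M, i₀, hM⟩ := machine_iff c
  refine ⟨5, M, fun h => hc ?_⟩
  refine ComputablePred.computable_of_manyOneReducible
    (q := fun v : Fin 5 → ℕ => EqvGen (Step M) (fun j => (v j : ℤ)) 0)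
    ⟨fun n => (i₀ ::ᵥ g n ::ᵥ 0 ::ᵥ 0 ::ᵥ 0 ::ᵥ List.Vector.nil : List.Vector ℕ 5).get, ?_,
      fun n => ?_⟩ h
  · refine (Primrec.vector_get'.comp ?_).to_comp
    exact Primrec.vector_cons.comp (Primrec.const _) (Primrec.vector_cons.comp g_primrec
      (Primrec.const _))
  · refine (hM [n]).symm.trans ?_
    have : (fun j => (((i₀ ::ᵥ g n ::ᵥ 0 ::ᵥ 0 ::ᵥ 0 ::ᵥ List.Vector.nil :
        List.Vector ℕ 5).get j : ℕ) : ℤ)) = ![(i₀ : ℤ), (enc (trList [n]) : ℤ), 0, 0, 0] := by
      funext j
      fin_cases j <;> rfl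
    exact (this ▸ Iff.rfl)

end Pool.Agent.helper27.Mach
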