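import Pool.Agent.helper11.Boone.Defs

/-! Simulation of the stack machine `Turing.PartrecToTM2` by an affine machine on `ℤ^5`
(module M2b for MP_1b0330_gt). -/

set_option autoImplicit false
set_option backward.isDefEq.respectTransparency false

open Turing Turing.PartrecToTM2 Relation Function
open Pool.Agent.helper11.Boone

namespace Pool.Agent.helper27.Mach

/-! ### Generalities on affine machines -/

theorem rel_unique {k : ℕ} {ρ : Rule k} {x y z : Fin k → ℤ} (h : ρ.Rel x y) (h' : ρ.Rel x z) :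
    y = z := by
  obtain ⟨u, hu, hy⟩ := h
  obtain ⟨w, hw, hz⟩ := h'
  funext j
  rw [hy, hz]
  by_cases hp : ρ.p j = 0
  · rw [(ρ.hpq j).1 hp]; simp
  · have h1 : ρ.p j * u j = ρ.p j * w j := by
      have := (hu j).symm.trans (hw j)
      linarith
    rw [mul_left_cancel₀ hp h1]

/-- Determinism. -/
def Det {k : ℕ} (M : List (Rule k)) : Prop :=
  ∀ ρ ∈ M, ∀ ρ' ∈ M, ∀ x y y' : Fin k → ℤ, ρ.Rel x y → ρ'.Rel x y' → y = y'

theorem Det.step {k : ℕ} {M : List (Rule k)} (h : Det M) {x y z : Fin k → ℤ} (hy : Step M x y)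
    (hz : Step M x z) : y = z := by
  obtain ⟨ρ, hρ, hy⟩ := hy
  obtain ⟨ρ', hρ', hz⟩ := hz
  exact h ρ hρ ρ' hρ' x y z hy hz

theorem eqvGen_iff {k : ℕ} {M : List (Rule k)} (hM : Det M) (h0 : ∀ y, ¬ Step M 0 y)
    (x : Fin k → ℤ) : EqvGen (Step M) x 0 ↔ ReflTransGen (Step M) x 0 := by
  constructor
  · intro h
    have key : ∀ x y, EqvGen (Step M) x y →
        (ReflTransGen (Step M) x 0 ↔ ReflTransGen (Step M) y 0) := by
      intro x y h
      induction h with
      | rel x y h =>
        constructor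
        · intro hx
          rcases ReflTransGen.cases_head hx with rfl | ⟨z, hz, hz'⟩
          · exact absurd h (h0 y)
          · rwa [hM.step h hz]
        · intro hy
          exact ReflTransGen.head h hy
      | refl x => exact Iff.rfl
      | symm x y _ ih => exact ih.symm
      | trans x y z _ _ ih1 ih2 => exact ih1.trans ih2
    exact (key x 0 h).2 ReflTransGen.refl
  · intro h
    induction h using ReflTransGen.head_induction_on with
    | refl => exact EqvGen.refl _
    | head h _ ih => exact EqvGen.trans _ _ _ (EqvGen.rel _ _ h) ih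

/-! ### The micro machine -/

/-- States of the micro machine: a statement (or `none` at the end) and the local store. -/
abbrev St := Option Stmt' × Option Γ'

/-- Configurations of the micro machine. -/
abbrev MC := St × (K' → List Γ')

/-- One micro step. -/
def mstep : MC → Option MC
  | ((some (TM2.Stmt.push k f q), v), T) => some ((some q, v), update T k (f v :: T k))
  | ((some (TM2.Stmt.peek k f q), v), T) => some ((some q, f v (T k).head?), T)
  | ((some (TM2.Stmt.pop k f q), v), T) => some ((some q, f v (T k).head?), update T k (T k).tail)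
  | ((some (TM2.Stmt.load a q), v), T) => some ((some q, a v), T)
  | ((some (TM2.Stmt.branch f q₁ q₂), v), T) => some ((some (cond (f v) q₁ q₂), v), T)
  | ((some (TM2.Stmt.goto l), v), T) => some ((some (tr (l v)), v), T)
  | ((some TM2.Stmt.halt, v), T) => some ((none, v), T)
  | ((none, _), _) => none

/-- Embedding of the configurations of `TM2`. -/
def emb (c : Cfg') : MC := ((c.l.map tr, c.var), c.stk)

theorem stepAux_reaches (q : Stmt') (v : Option Γ') (T : K' → List Γ') :
    StateTransition.Reaches₁ mstep ((some q, v), T) (emb (TM2.stepAux q v T)) := by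
  induction q generalizing v T with
  | push k f q ih => exact TransGen.head rfl (ih _ _)
  | peek k f q ih => exact TransGen.head rfl (ih _ _)
  | pop k f q ih => exact TransGen.head rfl (ih _ _)
  | load a q ih => exact TransGen.head rfl (ih _ _)
  | branch f q₁ q₂ ih₁ ih₂ =>
    cases h : f v
    · refine TransGen.head (b := ((some q₂, v), T)) ?_ ?_
      · rw [Option.mem_def]; simp only [mstep, h]; rfl
      · rw [TM2.stepAux, h]; exact ih₂ v T
    · refine TransGen.head (b := ((some q₁, v), T)) ?_ ?_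
      · rw [Option.mem_def]; simp only [mstep, h]; rfl
      · rw [TM2.stepAux, h]; exact ih₁ v T
  | goto l => exact TransGen.single rfl
  | halt => exact TransGen.single rfl

theorem respects : StateTransition.Respects (TM2.step tr) mstep (fun a b => emb a = b) := by
  refine StateTransition.fun_respects.2 ?_
  rintro ⟨l, v, T⟩
  cases l with
  | none => rfl
  | some l => exact stepAux_reaches (tr l) v T

/-! ### Rules -/

/-- The coordinate of a stack. -/
def kk : K' → Fin 5
  | K'.main => 1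
  | K'.rev => 2
  | K'.aux => 3
  | K'.stack => 4

theorem kk_inj {k k' : K'} (h : kk k = kk k') : k = k' := by
  cases k <;> cases k' <;> first | rfl | (exfalso; revert h; decide)

theorem kk_ne (k : K') : kk k ≠ 0 := by cases k <;> decide

theorem eq_zero_or_kk (j : Fin 5) : j = 0 ∨ ∃ k, j = kk k := by
  fin_cases j
  · exact Or.inl rfl
  · exact Or.inr ⟨K'.main, rfl⟩
  · exact Or.inr ⟨K'.rev, rfl⟩
  · exact Or.inr ⟨K'.aux, rfl⟩
  · exact Or.inr ⟨K'.stack, rfl⟩

/-- The rule changing the state from `s` to `s'` and the stack `k` from `a + (p+1) u` to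
`b + (q+1) u`. -/
def mk (s s' : ℤ) (k : K') (a : ℤ) (p : ℕ) (b : ℤ) (q : ℕ) : Rule 5 where
  a := fun j => if j = 0 then s else if j = kk k then a else 0
  p := fun j => if j = 0 then 0 else if j = kk k then (p : ℤ) + 1 else 1
  b := fun j => if j = 0 then s' else if j = kk k then b else 0
  q := fun j => if j = 0 then 0 else if j = kk k then (q : ℤ) + 1 else 1
  hpq := fun j => by
    have h1 : (p : ℤ) + 1 ≠ 0 := by positivity
    have h2 : (q : ℤ) + 1 ≠ 0 := by positivity
    by_cases h0 : j = 0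
    · simp [h0]
    · by_cases h3 : j = kk k
      · simp [h3, kk_ne, h1, h2]
      · simp [h0, h3]

theorem mk_rel {s s' : ℤ} {k : K'} {a : ℤ} {p : ℕ} {b : ℤ} {q : ℕ} {z z' : Fin 5 → ℤ} :
    (mk s s' k a p b q).Rel z z' ↔
      z 0 = s ∧ z' 0 = s' ∧
        (∃ u : ℤ, z (kk k) = a + ((p : ℤ) + 1) * u ∧ z' (kk k) = b + ((q : ℤ) + 1) * u) ∧
        ∀ k', k' ≠ k → z' (kk k') = z (kk k') := by
  constructor
  · rintro ⟨u, hu, hu'⟩
    refine ⟨by simpa [mk] using hu 0, by simpa [mk] using hu' 0,
      ⟨u (kk k), by simpa [mk, kk_ne] using hu (kk k), by simpa [mk, kk_ne] using hu' (kk k)⟩,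
      fun k' hk' => ?_⟩
    have hne : kk k' ≠ kk k := fun h => hk' (kk_inj h)
    have h1 := hu (kk k')
    have h2 := hu' (kk k')
    simp only [mk, kk_ne, hne, if_false] at h1 h2
    rw [h1, h2]
  · rintro ⟨h1, h2, ⟨u, hu, hu'⟩, h3⟩
    refine ⟨fun j => if j = kk k then u else z j, fun j => ?_, fun j => ?_⟩
    · rcases eq_zero_or_kk j with rfl | ⟨k', rfl⟩
      · simp [mk, h1]
      · by_cases hk' : k' = k
        · subst hk'; simp [mk, kk_ne, hu]
        · have hne : kk k' ≠ kk k := fun h => hk' (kk_inj h)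
          simp [mk, kk_ne, hne]
    · rcases eq_zero_or_kk j with rfl | ⟨k', rfl⟩
      · simp [mk, h2]
      · by_cases hk' : k' = k
        · subst hk'; simp [mk, kk_ne, hu']
        · have hne : kk k' ≠ kk k := fun h => hk' (kk_inj h)
          simp [mk, kk_ne, hne, h3 k' hk']

/-- Digits. -/
def dig : Γ' → ℕ
  | Γ'.consₗ => 1
  | Γ'.cons => 2
  | Γ'.bit0 => 3
  | Γ'.bit1 => 4

/-- Digits, `0` for the end of the stack. -/
def odig : Option Γ' → ℕ
  | none => 0
  | some c => dig c

theorem dig_pos (c : Γ') : 0 < dig c := by cases c <;> decide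
theorem dig_lt (c : Γ') : dig c < 5 := by cases c <;> decide
theorem odig_lt (o : Option Γ') : odig o < 5 := by
  cases o with
  | none => decide
  | some c => exact dig_lt c
theorem odig_inj {o o' : Option Γ'} (h : odig o = odig o') : o = o' := by
  rcases o with _ | c <;> rcases o' with _ | c' <;> try rfl
  · exact absurd h.symm (dig_pos c').ne'
  · exact absurd h (dig_pos c).ne'
  · cases c <;> cases c' <;> first | rfl | (exfalso; revert h; decide)

theorem odig_inj_mod {o o' : Option Γ'} {u u' : ℤ}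
    (h : (odig o : ℤ) + (((4 : ℕ) : ℤ) + 1) * u = odig o' + (((4 : ℕ) : ℤ) + 1) * u') :
    o = o' := by
  have h1 := odig_lt o
  have h2 := odig_lt o'
  push_cast at h
  exact odig_inj (by omega)

/-- The code of a stack. -/
def enc : List Γ' → ℕ
  | [] => 0
  | a :: l => dig a + 5 * enc l

theorem enc_head_tail (l : List Γ') (o : Option Γ') (ho : l.head? = o) :
    enc l = odig o + 5 * enc l.tail := by
  subst ho
  cases l <;> rfl

/-- The code of a configuration. -/
def encC (idx : St → ℕ) (c : MC) : Fin 5 → ℤ :=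
  ![(idx c.1 : ℤ), enc (c.2 K'.main), enc (c.2 K'.rev), enc (c.2 K'.aux), enc (c.2 K'.stack)]

theorem encC_zero (idx : St → ℕ) (c : MC) : encC idx c 0 = idx c.1 := rfl

theorem encC_kk (idx : St → ℕ) (c : MC) (k : K') : encC idx c (kk k) = enc (c.2 k) := by
  cases k <;> rfl

/-- The rules of the machine. -/
def ruleOf (idx : St → ℕ) : Stmt' → Option Γ' → Option Γ' → Rule 5
  | TM2.Stmt.push k f q, v, _ =>
    mk (idx (some (TM2.Stmt.push k f q), v)) (idx (some q, v)) k 0 0 (dig (f v)) 4
  | TM2.Stmt.peek k f q, v, o =>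
    mk (idx (some (TM2.Stmt.peek k f q), v)) (idx (some q, f v o)) k (odig o) 4 (odig o) 4
  | TM2.Stmt.pop k f q, v, o =>
    mk (idx (some (TM2.Stmt.pop k f q), v)) (idx (some q, f v o)) k (odig o) 4 0
      (if o = none then 4 else 0)
  | TM2.Stmt.load a q, v, _ =>
    mk (idx (some (TM2.Stmt.load a q), v)) (idx (some q, a v)) K'.main 0 0 0 0
  | TM2.Stmt.branch f q₁ q₂, v, _ =>
    mk (idx (some (TM2.Stmt.branch f q₁ q₂), v)) (idx (some (cond (f v) q₁ q₂), v)) K'.main
      0 0 0 0
  | TM2.Stmt.goto l, v, _ =>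
    mk (idx (some (TM2.Stmt.goto l), v)) (idx (some (tr (l v)), v)) K'.main 0 0 0 0
  | TM2.Stmt.halt, v, _ =>
    mk (idx (some TM2.Stmt.halt, v)) (idx (none, v)) K'.main 0 0 0 0

/-- The clearing rules. -/
def clr (c : Γ') : Rule 5 := mk 0 0 K'.main (dig c) 4 0 0

theorem ruleOf_state (idx : St → ℕ) (s : Stmt') (v o : Option Γ') {z z' : Fin 5 → ℤ}
    (h : (ruleOf idx s v o).Rel z z') : z 0 = idx (some s, v) := by
  cases s <;> exact (mk_rel.1 h).1

theorem ruleOf_det (idx : St → ℕ) (s : Stmt') (v o o' : Option Γ') {z x y : Fin 5 → ℤ}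
    (h : (ruleOf idx s v o).Rel z x) (h' : (ruleOf idx s v o').Rel z y) : x = y := by
  cases s with
  | push k f q => exact rel_unique h h'
  | load a q => exact rel_unique h h'
  | branch f q₁ q₂ => exact rel_unique h h'
  | goto l => exact rel_unique h h'
  | halt => exact rel_unique h h'
  | peek k f q =>
    obtain ⟨u, hu, _⟩ := (mk_rel.1 h).2.2.1
    obtain ⟨u', hu', _⟩ := (mk_rel.1 h').2.2.1
    obtain rfl := odig_inj_mod (hu.symm.trans hu')
    exact rel_unique h h'
  | pop k f q =>
    obtain ⟨u, hu, _⟩ := (mk_rel.1 h).2.2.1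
    obtain ⟨u', hu', _⟩ := (mk_rel.1 h').2.2.1
    obtain rfl := odig_inj_mod (hu.symm.trans hu')
    exact rel_unique h h'

/-- Every micro step is realised by a rule. -/
theorem ruleOf_sim (idx : St → ℕ) (s : Stmt') (v : Option Γ') (T : K' → List Γ') :
    ∃ c', mstep ((some s, v), T) = some c' ∧
      ∃ o, (ruleOf idx s v o).Rel (encC idx ((some s, v), T)) (encC idx c') := by
  cases s with
  | push k f q =>
    refine ⟨_, rfl, none, mk_rel.2 ⟨rfl, rfl, ⟨enc (T k), ?_, ?_⟩, fun k' hk' => ?_⟩⟩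
    · rw [encC_kk]; simp
    · rw [encC_kk]; simp [enc]
    · rw [encC_kk, encC_kk]; simp [hk']
  | peek k f q =>
    refine ⟨_, rfl, (T k).head?, mk_rel.2 ⟨rfl, rfl, ⟨enc (T k).tail, ?_, ?_⟩, fun k' hk' => ?_⟩⟩
    · rw [encC_kk]; have := enc_head_tail (T k) _ rfl; push_cast; omega
    · rw [encC_kk]; have := enc_head_tail (T k) _ rfl; push_cast; omega
    · rw [encC_kk, encC_kk]
  | pop k f q =>
    refine ⟨_, rfl, (T k).head?, mk_rel.2 ⟨rfl, rfl, ⟨enc (T k).tail, ?_, ?_⟩, fun k' hk' => ?_⟩⟩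
    · rw [encC_kk]; have := enc_head_tail (T k) _ rfl; push_cast; omega
    · rw [encC_kk]
      cases hT : T k <;> simp [enc]
    · rw [encC_kk, encC_kk]; simp [hk']
  | load a q =>
    refine ⟨_, rfl, none, mk_rel.2 ⟨rfl, rfl, ⟨enc (T K'.main), ?_, ?_⟩, fun k' hk' => ?_⟩⟩
    · rw [encC_kk]; simp
    · rw [encC_kk]; simp
    · rw [encC_kk, encC_kk]
  | branch f q₁ q₂ =>
    refine ⟨_, rfl, none, mk_rel.2 ⟨rfl, rfl, ⟨enc (T K'.main), ?_, ?_⟩, fun k' hk' => ?_⟩⟩
    · rw [encC_kk]; simp
    · rw [encC_kk]; simp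
    · rw [encC_kk, encC_kk]
  | goto l =>
    refine ⟨_, rfl, none, mk_rel.2 ⟨rfl, rfl, ⟨enc (T K'.main), ?_, ?_⟩, fun k' hk' => ?_⟩⟩
    · rw [encC_kk]; simp
    · rw [encC_kk]; simp
    · rw [encC_kk, encC_kk]
  | halt =>
    refine ⟨_, rfl, none, mk_rel.2 ⟨rfl, rfl, ⟨enc (T K'.main), ?_, ?_⟩, fun k' hk' => ?_⟩⟩
    · rw [encC_kk]; simp
    · rw [encC_kk]; simp
    · rw [encC_kk, encC_kk]

end Pool.Agent.helper27.Mach
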