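import Pool.Agent.helper27.Mach.Sim

/-! A universal affine machine (module M2b for MP_1b0330_gt). -/

set_option autoImplicit false
set_option backward.isDefEq.respectTransparency false

open Turing Turing.PartrecToTM2 Relation Function
open Pool.Agent.helper11.Boone

namespace Pool.Agent.helper27.Mach

open scoped Classical in
/-- The finite set of statements used by the program `c`. -/
noncomputable def SS (c : ToPartrec.Code) : Finset Stmt' :=
  (codeSupp c Cont'.halt).biUnion fun l => TM2.stmts₁ (tr l)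

theorem mem_SS {c : ToPartrec.Code} {s : Stmt'} :
    s ∈ SS c ↔ ∃ l ∈ codeSupp c Cont'.halt, s ∈ TM2.stmts₁ (tr l) := by
  classical
  simp [SS]

theorem supp (c : ToPartrec.Code) {s : Stmt'} (hs : s ∈ SS c) {v : Option Γ'} {T : K' → List Γ'}
    {c' : MC} (h : mstep ((some s, v), T) = some c') : ∀ s', c'.1.1 = some s' → s' ∈ SS c := by
  obtain ⟨l, hl, hs⟩ := mem_SS.1 hs
  have hsup : TM2.SupportsStmt (codeSupp c Cont'.halt) s :=
    TM2.stmts₁_supportsStmt_mono hs (codeSupp_supports (Finset.Subset.refl _) l hl)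
  have hself : ∀ q : Stmt', q ∈ TM2.stmts₁ q := fun q => TM2.stmts₁_self
  cases s with
  | push k f q =>
    obtain rfl := Option.some_inj.1 h.symm
    rintro s' h'
    obtain rfl : s' = q := (Option.some_inj.1 h').symm
    exact mem_SS.2 ⟨l, hl, TM2.stmts₁_trans hs (by simp [TM2.stmts₁, hself])⟩
  | peek k f q =>
    obtain rfl := Option.some_inj.1 h.symm
    rintro s' h'
    obtain rfl : s' = q := (Option.some_inj.1 h').symm
    exact mem_SS.2 ⟨l, hl, TM2.stmts₁_trans hs (by simp [TM2.stmts₁, hself])⟩
  | pop k f q =>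
    obtain rfl := Option.some_inj.1 h.symm
    rintro s' h'
    obtain rfl : s' = q := (Option.some_inj.1 h').symm
    exact mem_SS.2 ⟨l, hl, TM2.stmts₁_trans hs (by simp [TM2.stmts₁, hself])⟩
  | load a q =>
    obtain rfl := Option.some_inj.1 h.symm
    rintro s' h'
    obtain rfl : s' = q := (Option.some_inj.1 h').symm
    exact mem_SS.2 ⟨l, hl, TM2.stmts₁_trans hs (by simp [TM2.stmts₁, hself])⟩
  | branch f q₁ q₂ =>
    obtain rfl := Option.some_inj.1 h.symm
    rintro s' h'
    obtain rfl : s' = cond (f v) q₁ q₂ := (Option.some_inj.1 h').symm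
    refine mem_SS.2 ⟨l, hl, TM2.stmts₁_trans hs ?_⟩
    cases f v <;> simp [TM2.stmts₁, hself]
  | goto g =>
    obtain rfl := Option.some_inj.1 h.symm
    rintro s' h'
    obtain rfl : s' = tr (g v) := (Option.some_inj.1 h').symm
    exact mem_SS.2 ⟨g v, hsup v, hself _⟩
  | halt =>
    obtain rfl := Option.some_inj.1 h.symm
    rintro s' h'
    cases h'

/-- An index of the states. -/
theorem exists_idx (F : Finset Stmt') : ∃ idx : St → ℕ, idx (none, none) = 0 ∧
    (∀ s ∈ F, ∀ v, idx (some s, v) ≠ 0) ∧
    ∀ s ∈ F, ∀ s' ∈ F, ∀ v v', idx (some s, v) = idx (some s', v') → s = s' ∧ v = v' := by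
  classical
  let G : Finset (Stmt' × Option Γ') := F ×ˢ Finset.univ
  let e := G.equivFin
  refine ⟨fun x => match x with
    | (none, _) => 0
    | (some s, v) => if h : (s, v) ∈ G then (e ⟨(s, v), h⟩ : ℕ) + 1 else 0, rfl, ?_, ?_⟩
  · intro s hs v
    have : (s, v) ∈ G := by simp [G, hs]
    simp only [this, dif_pos]
    omega
  · intro s hs s' hs' v v' h
    have h1 : (s, v) ∈ G := by simp [G, hs]
    have h2 : (s', v') ∈ G := by simp [G, hs']
    simp only [h1, h2, dif_pos] at h
    have h3 : e ⟨(s, v), h1⟩ = e ⟨(s', v'), h2⟩ := Fin.ext (by omega)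
    have h4 := congrArg Subtype.val (e.injective h3)
    exact Prod.ext_iff.1 h4

section
variable (F : Finset Stmt') (idx : St → ℕ)

/-- The list of rules. -/
noncomputable def rules : List (Rule 5) :=
  (F ×ˢ ((Finset.univ : Finset (Option Γ')) ×ˢ (Finset.univ : Finset (Option Γ')))).toList.map
    (fun x => ruleOf idx x.1 x.2.1 x.2.2) ++ (Finset.univ : Finset Γ').toList.map clr

theorem mem_rules {ρ : Rule 5} : ρ ∈ rules F idx ↔
    (∃ s ∈ F, ∃ v o, ruleOf idx s v o = ρ) ∨ ∃ c, clr c = ρ := by
  simp only [rules, List.mem_append, List.mem_map, Finset.mem_toList, Finset.mem_product,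
    Finset.mem_univ, and_true, true_and, Prod.exists]
  constructor
  · rintro (⟨s, v, o, hs, h⟩ | h)
    · exact Or.inl ⟨s, hs, v, o, h⟩
    · exact Or.inr h
  · rintro (⟨s, hs, v, o, h⟩ | h)
    · exact Or.inl ⟨s, v, o, hs, h⟩
    · exact Or.inr h

variable {F idx}
variable (h1 : ∀ s ∈ F, ∀ v, idx (some s, v) ≠ 0)
  (h2 : ∀ s ∈ F, ∀ s' ∈ F, ∀ v v', idx (some s, v) = idx (some s', v') → s = s' ∧ v = v')
include h1 h2

theorem rules_det : Det (rules F idx) := by
  intro ρ hρ ρ' hρ' x y y' h h'
  rcases (mem_rules F idx).1 hρ with ⟨s, hs, v, o, rfl⟩ | ⟨c, rfl⟩ <;>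
    rcases (mem_rules F idx).1 hρ' with ⟨s', hs', v', o', rfl⟩ | ⟨c', rfl⟩
  · have e1 := ruleOf_state idx s v o h
    have e2 := ruleOf_state idx s' v' o' h'
    obtain ⟨rfl, rfl⟩ := h2 s hs s' hs' v v' (by exact_mod_cast e1.symm.trans e2)
    exact ruleOf_det idx s v o o' h h'
  · have e1 := ruleOf_state idx s v o h
    have e2 := (mk_rel.1 h').1
    exact absurd (by exact_mod_cast e1.symm.trans e2) (h1 s hs v)
  · have e1 := ruleOf_state idx s' v' o' h'
    have e2 := (mk_rel.1 h).1
    exact absurd (by exact_mod_cast e1.symm.trans e2) (h1 s' hs' v')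
  · obtain ⟨u, hu, _⟩ := (mk_rel.1 h).2.2.1
    obtain ⟨u', hu', _⟩ := (mk_rel.1 h').2.2.1
    have := @odig_inj_mod (some c) (some c') u u' (hu.symm.trans hu')
    obtain rfl := Option.some_inj.1 this
    exact rel_unique h h'

omit h2 in
theorem rules_halt (y : Fin 5 → ℤ) : ¬ Step (rules F idx) 0 y := by
  rintro ⟨ρ, hρ, h⟩
  rcases (mem_rules F idx).1 hρ with ⟨s, hs, v, o, rfl⟩ | ⟨c, rfl⟩
  · have e1 : (0 : ℤ) = idx (some s, v) := ruleOf_state idx s v o h
    exact h1 s hs v (by exact_mod_cast e1.symm)
  · obtain ⟨u, hu, _⟩ := (mk_rel.1 h).2.2.1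
    have := dig_pos c
    have := dig_lt c
    simp only [Pi.zero_apply] at hu
    push_cast at hu
    omega

end

theorem clear_reaches {F : Finset Stmt'} {idx : St → ℕ} (h0 : idx (none, none) = 0)
    (L : List Γ') : ReflTransGen (Step (rules F idx))
      (encC idx ((none, none), K'.elim L [] [] [])) 0 := by
  induction L with
  | nil =>
    have : encC idx ((none, none), K'.elim [] [] [] []) = 0 := by
      funext j
      rcases eq_zero_or_kk j with rfl | ⟨k, rfl⟩
      · rw [encC_zero, h0]; rfl
      · rw [encC_kk]; cases k <;> rfl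
    rw [this]
  | cons c L ih =>
    refine ReflTransGen.head ⟨clr c, (mem_rules F idx).2 (Or.inr ⟨c, rfl⟩), ?_⟩ ih
    refine mk_rel.2 ⟨?_, ?_, ⟨enc L, ?_, ?_⟩, fun k' hk' => ?_⟩
    · rw [encC_zero, h0]; rfl
    · rw [encC_zero, h0]; rfl
    · rw [encC_kk]; simp only [K'.elim, enc]; push_cast; ring
    · rw [encC_kk]; simp only [K'.elim]; push_cast; ring
    · rw [encC_kk, encC_kk]
      cases k' <;> first | exact absurd rfl hk' | rfl

/-- The affine machine reaches the origin exactly when the program halts. -/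
theorem machine_iff (c : ToPartrec.Code) : ∃ (M : List (Rule 5)) (i₀ : ℕ), ∀ v : List ℕ,
    EqvGen (Step M) ![(i₀ : ℤ), (enc (trList v) : ℤ), 0, 0, 0] 0 ↔ (c.eval v).Dom := by
  obtain ⟨idx, h0, h1, h2⟩ := exists_idx (SS c)
  have hstart : tr (trNormal c Cont'.halt) ∈ SS c :=
    mem_SS.2 ⟨_, codeSupp_self _ _ (trStmts₁_self _), TM2.stmts₁_self⟩
  refine ⟨rules (SS c) idx, idx (some (tr (trNormal c Cont'.halt)), none), fun v => ?_⟩
  have hM := rules_det h1 h2
  have hz : (![(idx (some (tr (trNormal c Cont'.halt)), none) : ℤ), (enc (trList v) : ℤ), 0, 0, 0] :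
      Fin 5 → ℤ) = encC idx (emb (init c v)) := by
    funext j
    fin_cases j <;> rfl
  rw [hz, eqvGen_iff hM (rules_halt h1)]
  have hdom : (StateTransition.eval mstep (emb (init c v))).Dom ↔ (c.eval v).Dom := by
    rw [StateTransition.tr_eval_dom respects (a₁ := init c v) rfl, PartrecToTM2.tr_eval]
    rfl
  constructor
  · intro h
    rw [← hdom]
    have key : ∀ x : Fin 5 → ℤ, ReflTransGen (Step (rules (SS c) idx)) x 0 → ∀ d : MC,
        encC idx d = x → (∀ s, d.1.1 = some s → s ∈ SS c) →
          (StateTransition.eval mstep d).Dom := by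
      intro x hx
      induction hx using ReflTransGen.head_induction_on with
      | refl =>
        rintro ⟨⟨s, w⟩, T⟩ hd hs
        cases s with
        | none =>
          exact Part.dom_iff_mem.2 ⟨_, StateTransition.mem_eval.2 ⟨ReflTransGen.refl, rfl⟩⟩
        | some s =>
          have h5 : (idx (some s, w) : ℤ) = 0 := congrFun hd 0
          exact absurd (by exact_mod_cast h5) (h1 s (hs s rfl) w)
      | head hxy hyy ih =>
        rename_i x y
        rintro ⟨⟨s, w⟩, T⟩ hd hs
        cases s with
        | none =>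
          exact Part.dom_iff_mem.2 ⟨_, StateTransition.mem_eval.2 ⟨ReflTransGen.refl, rfl⟩⟩
        | some s =>
          obtain ⟨c', hc', o, ho⟩ := ruleOf_sim idx s w T
          have hstep : Step (rules (SS c) idx) x (encC idx c') := by
            rw [← hd]
            exact ⟨_, (mem_rules _ _).2 (Or.inl ⟨s, hs s rfl, w, o, rfl⟩), ho⟩
          have hy : y = encC idx c' := hM.step hxy hstep
          have := ih c' hy.symm (supp c (hs s rfl) hc')
          rw [StateTransition.reaches_eval (ReflTransGen.single hc')]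
          exact this
    exact key _ h _ rfl (fun s hs => by
      obtain rfl : s = tr (trNormal c Cont'.halt) := (Option.some_inj.1 hs).symm
      exact hstart)
  · intro h
    obtain ⟨v', hv'⟩ := Part.dom_iff_mem.1 h
    have hmem : halt v' ∈ StateTransition.eval (TM2.step tr) (init c v) := by
      rw [PartrecToTM2.tr_eval]
      exact Part.mem_map _ hv'
    obtain ⟨b, hb, hb'⟩ := StateTransition.tr_eval respects (a₁ := init c v) rfl hmem
    have hreach := (StateTransition.mem_eval.1 hb').1
    have key : ∀ d : MC, StateTransition.Reaches mstep d b → (∀ s, d.1.1 = some s → s ∈ SS c) →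
        ReflTransGen (Step (rules (SS c) idx)) (encC idx d) (encC idx b) := by
      intro d hd
      induction hd using ReflTransGen.head_induction_on with
      | refl => exact fun _ => ReflTransGen.refl
      | head hxy hyy ih =>
        rename_i x y
        intro hs
        obtain ⟨⟨s, w⟩, T⟩ := x
        cases s with
        | none => cases hxy
        | some s =>
          obtain ⟨c', hc', o, ho⟩ := ruleOf_sim idx s w T
          obtain rfl : c' = y := Option.some_inj.1 (hc'.symm.trans hxy)
          exact ReflTransGen.head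
            ⟨_, (mem_rules _ _).2 (Or.inl ⟨s, hs s rfl, w, o, rfl⟩), ho⟩
            (ih (supp c (hs s rfl) hc'))
    have h3 := key _ hreach (fun s hs => by
      obtain rfl : s = tr (trNormal c Cont'.halt) := (Option.some_inj.1 hs).symm
      exact hstart)
    refine h3.trans ?_
    rw [← hb]
    exact clear_reaches h0 _

end Pool.Agent.helper27.Mach
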